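import Mathlib

namespace Pool.Agent.Results.MP_c8c065_al.JacobsonNil

universe u

/-- A ring is `π`-UU if every unit has a positive power lying in `1 + Nil(R)`. -/
def IsPiUU (R : Type u) [Ring R] : Prop :=
  ∀ v : Rˣ, ∃ i : ℕ, 1 ≤ i ∧ ∃ q : R, IsNilpotent q ∧ (v : R) ^ i = 1 + q

theorem complex_case (z : ℂ) (i k : ℕ) (hi : 1 ≤ i) (hk : 1 ≤ k) (h1 : (1 + z) ^ i = 1)
    (h2 : (1 + 2 * z) ^ k = 1) : z = 0 := by
  have n1 : ‖1 + z‖ = 1 := Complex.norm_eq_one_of_pow_eq_one h1 (by omega)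
  have n2 : ‖1 + 2 * z‖ = 1 := Complex.norm_eq_one_of_pow_eq_one h2 (by omega)
  have m1 : Complex.normSq (1 + z) = 1 := by rw [Complex.normSq_eq_norm_sq, n1]; norm_num
  have m2 : Complex.normSq (1 + 2 * z) = 1 := by rw [Complex.normSq_eq_norm_sq, n2]; norm_num
  simp [Complex.normSq_apply] at m1 m2
  have hr : z.re * z.re + z.im * z.im = 0 := by nlinarith
  have hre : z.re = 0 := by nlinarith [mul_self_nonneg z.re, mul_self_nonneg z.im]
  have him : z.im = 0 := by nlinarith [mul_self_nonneg z.re, mul_self_nonneg z.im]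
  exact Complex.ext hre him

theorem field_case (K : Type u) [Field K] (t : K) (i k : ℕ) (hi : 1 ≤ i) (hk : 1 ≤ k)
    (h1 : (1 + t) ^ i = 1) (h2 : (1 + 2 * t) ^ k = 1) (h3 : ∀ m : ℕ, 1 ≤ m → t ^ m ≠ 1) :
    t = 0 := by
  by_contra ht
  obtain ⟨p, hp⟩ := CharP.exists K
  rcases CharP.char_is_prime_or_zero K p with hpp | rfl
  · haveI := Fact.mk hpp
    have hfin : Finite (Submonoid.powers (1 + t)) := by
      have : IsOfFinOrder (1 + t) := isOfFinOrder_iff_pow_eq_one.2 ⟨i, by omega, h1⟩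
      exact this.finite_powers.to_subtype
    obtain ⟨a, b, hab, he⟩ := Finite.exists_ne_map_eq_of_infinite
      (fun a : ℕ => (⟨(1 + t) ^ (p ^ a), p ^ a, rfl⟩ : Submonoid.powers (1 + t)))
    have he' : (1 + t) ^ (p ^ a) = (1 + t) ^ (p ^ b) := congrArg Subtype.val he
    rw [add_pow_char_pow, add_pow_char_pow, one_pow, one_pow] at he'
    have he2 : t ^ (p ^ a) = t ^ (p ^ b) := by linear_combination he'
    have key : ∀ a b : ℕ, a < b → t ^ (p ^ a) = t ^ (p ^ b) → False := by
      intro a b hlt h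
      have hlt' : p ^ a < p ^ b := Nat.pow_lt_pow_right hpp.one_lt hlt
      apply h3 (p ^ b - p ^ a) (by omega)
      have : t ^ (p ^ b) = t ^ (p ^ a) * t ^ (p ^ b - p ^ a) := by
        rw [← pow_add]; congr 1; omega
      rw [this] at h
      have hne : t ^ (p ^ a) ≠ 0 := pow_ne_zero _ ht
      exact (mul_left_cancel₀ hne (by rw [← h, mul_one])).symm
    rcases lt_or_gt_of_ne hab with h | h
    · exact key a b h he2
    · exact key b a h he2.symm
  · haveI : CharZero K := CharP.charP_to_charZero K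
    have hint : IsIntegral ℚ (1 + t) := by
      refine ⟨Polynomial.X ^ i - 1, ?_, ?_⟩
      · have := Polynomial.monic_X_pow_sub_C (1 : ℚ) (n := i) (by omega)
        simpa using this
      · simp [h1]
    have hint2 : IsIntegral ℚ t := by
      have := hint.sub (isIntegral_one (R := ℚ) (B := K))
      simpa using this
    let L := IntermediateField.adjoin ℚ ({t} : Set K)
    haveI : FiniteDimensional ℚ L := IntermediateField.adjoin.finiteDimensional hint2
    let φ : L →ₐ[ℚ] ℂ := IsAlgClosed.lift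
    let s : L := ⟨t, IntermediateField.mem_adjoin_simple_self ℚ t⟩
    have g1 : (1 + s) ^ i = 1 := Subtype.ext (by simpa using h1)
    have g2 : (1 + 2 * s) ^ k = 1 := Subtype.ext (by
      have : ((2 : L) : K) = 2 := rfl
      simpa [this] using h2)
    have f1 := congrArg φ g1
    have f2 := congrArg φ g2
    simp only [map_pow, map_add, map_one, map_mul, map_ofNat] at f1 f2
    have h0 := complex_case (φ s) i k hi hk f1 f2
    have : s = 0 := φ.toRingHom.injective (by simpa using h0)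
    exact ht (congrArg Subtype.val this)

theorem unit_of_mem (R : Type u) [Ring R] (x : R) (hx : x ∈ Ring.jacobson R) : IsUnit (1 + x) := by
  have key : ∀ y : R, y ∈ Ring.jacobson R → ∃ z : R, z * (1 + y) = 1 := by
    intro y hy
    rw [← Ideal.jacobson_bot, Ideal.mem_jacobson_iff] at hy
    obtain ⟨z, hz⟩ := hy 1
    refine ⟨z, ?_⟩
    rw [Ideal.mem_bot] at hz
    have : z * (1 + y) - 1 = z * 1 * y + z - 1 := by noncomm_ring
    exact sub_eq_zero.1 (this.trans hz)
  obtain ⟨z, hz⟩ := key x hx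
  obtain ⟨w, hw⟩ := key (-(z * x)) (neg_mem (Ideal.mul_mem_left _ z hx))
  have hz' : 1 + -(z * x) = z := by rw [← hz]; noncomm_ring
  rw [hz'] at hw
  have hwx : w = 1 + x := by
    calc w = w * (z * (1 + x)) := by rw [hz, mul_one]
      _ = (w * z) * (1 + x) := by rw [mul_assoc]
      _ = 1 + x := by rw [hw, one_mul]
  exact ⟨⟨1 + x, z, by rw [← hwx, hw], hz⟩, rfl⟩

/-- The bicommutant of `j`. -/
def Bi {R : Type u} [Ring R] (j : R) : Subring R :=
  Subring.centralizer (Subring.centralizer ({j} : Set R) : Set R)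

theorem self_mem {R : Type u} [Ring R] (j : R) : j ∈ Bi j := by
  intro c hc
  exact (hc j rfl).symm

instance {R : Type u} [Ring R] (j : R) : CommRing (Bi j) :=
  { (inferInstance : Ring (Bi j)) with
    mul_comm := by
      intro a b
      apply Subtype.ext
      have hb : (b : R) ∈ Subring.centralizer ({j} : Set R) := by
        intro c hc
        rw [Set.mem_singleton_iff.1 hc]
        exact b.2 j (fun d hd => by rw [Set.mem_singleton_iff.1 hd])
      exact (a.2 b hb).symm }

theorem unit_bi {R : Type u} [Ring R] (j : R) (a : Bi j) (ha : IsUnit (a : R)) : IsUnit a := by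
  obtain ⟨v, hv⟩ := ha
  have hmem : ((v⁻¹ : Rˣ) : R) ∈ Bi j := by
    intro c hc
    have h : Commute c (v : R) := by rw [hv]; exact a.2 c hc
    exact h.units_inv_right
  refine ⟨⟨a, ⟨_, hmem⟩, Subtype.ext ?_, Subtype.ext ?_⟩, rfl⟩
  · show (a : R) * _ = 1
    rw [← hv]; simp
  · show _ * (a : R) = 1
    rw [← hv]; simp

theorem result (R : Type u) [Ring R] (h : IsPiUU R) :
    ∀ j ∈ Ring.jacobson R, IsNilpotent j := by
  intro j hj
  by_contra hn
  let s : Bi j := ⟨j, self_mem j⟩
  have hs : ¬ IsNilpotent s := by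
    rintro ⟨n, hn'⟩
    exact hn ⟨n, congrArg Subtype.val hn'⟩
  rw [nilpotent_iff_mem_prime] at hs
  push Not at hs
  obtain ⟨P, hP, hsP⟩ := hs
  let K := FractionRing (Bi j ⧸ P)
  let φ : Bi j →+* K := (algebraMap (Bi j ⧸ P) K).comp (Ideal.Quotient.mk P)
  have hφ : φ s ≠ 0 := by
    intro h0
    apply hsP
    have : algebraMap (Bi j ⧸ P) K (Ideal.Quotient.mk P s) = 0 := h0
    rw [map_eq_zero_iff _ (IsFractionRing.injective _ _)] at this
    exact Ideal.Quotient.eq_zero_iff_mem.1 this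
  have root : ∀ a : Bi j, (a : R) ∈ Ring.jacobson R → ∃ i : ℕ, 1 ≤ i ∧ (1 + φ a) ^ i = 1 := by
    intro a ha
    obtain ⟨v, hv⟩ := unit_of_mem R a ha
    obtain ⟨i, hi, q, ⟨n, hq⟩, he⟩ := h v
    refine ⟨i, hi, ?_⟩
    have hnil : IsNilpotent ((1 + a) ^ i - 1 : Bi j) := by
      refine ⟨n, Subtype.ext ?_⟩
      have : q = (1 + (a : R)) ^ i - 1 := by rw [← hv, he]; abel
      simpa [this] using hq
    have := (hnil.map φ).eq_zero
    simp only [map_sub, map_pow, map_add, map_one] at this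
    exact sub_eq_zero.1 this
  obtain ⟨i, hi, h1⟩ := root s hj
  obtain ⟨k, hk, h2⟩ := root (2 * s) (Ideal.mul_mem_left _ 2 hj)
  rw [map_mul, map_ofNat] at h2
  refine hφ (field_case K (φ s) i k hi hk h1 h2 ?_)
  intro m hm he
  have hmem : (-(j ^ m)) ∈ Ring.jacobson R := by
    obtain ⟨n, rfl⟩ : ∃ n, m = n + 1 := ⟨m - 1, by omega⟩
    rw [pow_succ]
    exact neg_mem (Ideal.mul_mem_left _ _ hj)
  have hu : IsUnit (1 + -(s ^ m) : Bi j) := unit_bi j _ (unit_of_mem R _ hmem)
  have := hu.map φ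
  simp [he] at this

end Pool.Agent.Results.MP_c8c065_al.JacobsonNil
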